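import Pool.Agent.Lib.MP_d78df2_co.Upper

/-!
# Density threshold for rainbow cliques: `δ_r = 1 - 1/(r-1)` for all large `r`
-/

namespace Pool.Agent.Results.MP_d78df2_co.LargeCliqueThreshold

open Finset

/-- The template `G` (a family of `r.choose 2` simple graphs on `V`) contains a rainbow copy of
`K_r`: there are `r` distinct vertices `v 0, …, v (r-1)` and a bijection `φ` from the pairs `a < b`
of indices onto the colours such that `v a` and `v b` are adjacent in colour class `φ (a, b)`. -/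
def HasRainbowClique {V : Type} (r : ℕ) (G : Fin (r.choose 2) → SimpleGraph V) : Prop :=
  ∃ (v : Fin r ↪ V) (φ : {q : Fin r × Fin r // q.1 < q.2} ≃ Fin (r.choose 2)),
    ∀ q, (G (φ q)).Adj (v q.1.1) (v q.1.2)

/-- The real numbers `δ` such that for every sufficiently large `n` each `n`-vertex template of
`r.choose 2` colour classes, each with more than `δ n² / 2` edges, has a rainbow `K_r`. -/
def ThresholdSet (r : ℕ) : Set ℝ :=
  {δ : ℝ | ∃ N : ℕ, ∀ n : ℕ, N ≤ n → ∀ G : Fin (r.choose 2) → SimpleGraph (Fin n),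
    (∀ i, δ * ((n : ℝ) ^ 2 / 2) < ((G i).edgeSet.ncard : ℝ)) → HasRainbowClique r G}

theorem ncard_edgeSet {n : ℕ} (G : SimpleGraph (Fin n)) [DecidableRel G.Adj] :
    G.edgeSet.ncard = G.edgeFinset.card := by
  rw [← SimpleGraph.coe_edgeFinset, Set.ncard_coe_finset]

theorem sum_nonadj {n : ℕ} (G : SimpleGraph (Fin n)) [DecidableRel G.Adj] :
    ∑ u : Fin n, ∑ v : Fin n, (if ¬ G.Adj u v then (1 : ℝ) else 0)
      = (n : ℝ) ^ 2 - 2 * (G.edgeSet.ncard : ℝ) := by
  have h1 : ∀ u v : Fin n, (if ¬ G.Adj u v then (1 : ℝ) else 0)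
      = 1 - (if G.Adj u v then (1 : ℝ) else 0) := by
    intro u v
    by_cases h : G.Adj u v <;> simp [h]
  simp only [h1, Finset.sum_sub_distrib]
  have h2 : ∑ u : Fin n, ∑ v : Fin n, (if G.Adj u v then (1 : ℝ) else 0)
      = 2 * (G.edgeSet.ncard : ℝ) := by
    have h3 := G.sum_degrees_eq_twice_card_edges
    rw [ncard_edgeSet]
    have h4 : ∀ u : Fin n, ∑ v : Fin n, (if G.Adj u v then (1 : ℝ) else 0) = (G.degree u : ℝ) := by
      intro u
      rw [Finset.sum_boole, ← SimpleGraph.card_neighborFinset_eq_degree,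
        SimpleGraph.neighborFinset_eq_filter]
    simp only [h4]
    rw [← Nat.cast_sum, h3]
    push_cast
    ring
  rw [h2]
  simp only [Finset.sum_const, Finset.card_univ, Fintype.card_fin, nsmul_eq_mul, mul_one]
  ring

theorem mem_thresholdSet {r : ℕ} (hr : 100000000000000 ≤ r) :
    1 - 1 / ((r : ℝ) - 1) ∈ ThresholdSet r := by
  classical
  refine ⟨0, fun n _ G hG => ?_⟩
  obtain ⟨p, φ, hφ, hadj⟩ := Pool.Agent.Lib.MP_d78df2_co.upper (V := Fin n)
    (C := Fin (r.choose 2)) hr (Fintype.card_fin _)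
    (fun c u v => ¬ (G c).Adj u v) (fun c u v h h' => h h'.symm) (by
      intro c
      rw [sum_nonadj (G c), Fintype.card_fin]
      have := hG c
      linarith)
  have hadj' : ∀ q : {q : Fin r × Fin r // q.1 < q.2}, (G (φ q)).Adj (p q.1.1) (p q.1.2) :=
    fun q => not_not.1 (hadj q)
  have hbij : Function.Bijective φ := by
    rw [Fintype.bijective_iff_injective_and_card]
    exact ⟨hφ, by rw [Pool.Agent.Lib.MP_d78df2_co.card_Pr, Fintype.card_fin]⟩
  have hinj : Function.Injective p := by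
    intro a b hab
    by_contra hne
    rcases lt_or_gt_of_ne hne with h | h
    · have := hadj' ⟨(a, b), h⟩
      exact this.ne hab
    · have := hadj' ⟨(b, a), h⟩
      exact this.ne hab.symm
  exact ⟨⟨p, hinj⟩, Equiv.ofBijective φ hbij, hadj'⟩

theorem lower_bound {r : ℕ} (hr : 2 ≤ r) (δ : ℝ) (hδ : δ ∈ ThresholdSet r) :
    1 - 1 / ((r : ℝ) - 1) ≤ δ := by
  by_contra hlt
  push Not at hlt
  obtain ⟨N, hN⟩ := hδ
  obtain ⟨R, rfl⟩ : ∃ R, r = R + 1 := ⟨r - 1, by omega⟩
  have hR : 1 ≤ R := by omega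
  set q := N + 1 with hq
  have hn : N ≤ R * q := by nlinarith
  have hRR : (0 : ℝ) < R := by exact_mod_cast hR
  have hqR : (0 : ℝ) < q := by rw [hq]; positivity
  have hcard : 2 * ((SimpleGraph.turanGraph (R * q) R).edgeSet.ncard : ℝ)
      = R * (R - 1) * (q : ℝ) ^ 2 := by
    rw [ncard_edgeSet, SimpleGraph.card_edgeFinset_turanGraph]
    rw [Nat.mul_mod_right]
    have h1 : ((R * q) ^ 2 - 0 ^ 2) * (R - 1) / (2 * R) + Nat.choose 0 2
        = (R * (R - 1)) / 2 * q ^ 2 := by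
      have h2 : ((R * q) ^ 2 - 0 ^ 2) * (R - 1) = R * ((R * (R - 1)) * q ^ 2) := by
        rw [show (0 : ℕ) ^ 2 = 0 by norm_num, Nat.sub_zero]; ring
      rw [h2, mul_comm 2 R, Nat.mul_div_mul_left _ _ (by omega : 0 < R)]
      have h3 : 2 ∣ R * (R - 1) := (Nat.even_mul_pred_self R).two_dvd
      rw [Nat.div_mul_right_comm h3]
      rfl
    rw [h1]
    have h3 : 2 ∣ R * (R - 1) := (Nat.even_mul_pred_self R).two_dvd
    rw [Nat.cast_mul, Nat.cast_div_charZero h3, Nat.cast_mul, Nat.cast_sub hR, Nat.cast_pow]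
    push_cast
    ring
  have hrb := hN (R * q) hn (fun _ => SimpleGraph.turanGraph (R * q) R) (by
    intro i
    have h1 : (((R + 1 : ℕ) : ℝ) - 1) = R := by push_cast; ring
    rw [h1] at hlt
    have h2 : 2 * (δ * (((R * q : ℕ) : ℝ) ^ 2 / 2)) < 2 *
        ((SimpleGraph.turanGraph (R * q) R).edgeSet.ncard : ℝ) := by
      rw [hcard]
      have h3 : (R : ℝ) * (R - 1) * (q : ℝ) ^ 2 = (1 - 1 / (R : ℝ)) * (((R * q : ℕ) : ℝ) ^ 2) := by
        push_cast
        field_simp
      rw [h3]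
      have h4 : 2 * (δ * (((R * q : ℕ) : ℝ) ^ 2 / 2)) = δ * (((R * q : ℕ) : ℝ) ^ 2) := by ring
      rw [h4]
      apply mul_lt_mul_of_pos_right hlt
      push_cast
      positivity
    linarith)
  obtain ⟨v, φ, hv⟩ := hrb
  obtain ⟨a, b, hab, hfab⟩ := Fintype.exists_ne_map_eq_of_card_lt
    (fun a : Fin (R + 1) => (⟨(v a : ℕ) % R, Nat.mod_lt _ hR⟩ : Fin R)) (by simp)
  simp only [Fin.mk.injEq] at hfab
  rcases lt_or_gt_of_ne hab with h | h
  · exact (hv ⟨(a, b), h⟩) hfab
  · exact (hv ⟨(b, a), h⟩) hfab.symm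

/-- For every `r ≥ 10^14`, the threshold `δ_r` exists and equals the Turan density `1 - 1/(r-1)`. -/
theorem result : ∀ r : ℕ, 100000000000000 ≤ r →
    IsLeast (ThresholdSet r) (1 - 1 / ((r : ℝ) - 1)) := by
  intro r hr
  exact ⟨mem_thresholdSet hr, fun δ hδ => lower_bound (by omega) δ hδ⟩

end Pool.Agent.Results.MP_d78df2_co.LargeCliqueThreshold
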